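import Pool.Agent.helper94.PD.Stp
import Pool.Agent.helper14.EX1.CheN

/-!
# Most words are good
-/

namespace Pool.Agent.helper94.PD

open Finset Pool.Agent.helper14.EX1

theorem sqrt_pow' (k : ℕ) : Real.sqrt (3 / 2 ^ k) = Real.sqrt 3 * Real.sqrt (1 / 2) ^ k := by
  have e : (3 : ℝ) / 2 ^ k = 3 * (1 / 2) ^ k := by
    rw [one_div_pow]
    ring
  rw [e, Real.sqrt_mul (by norm_num)]
  congr 1
  rw [← Real.sqrt_sq (pow_nonneg (Real.sqrt_nonneg (1 / 2)) k), ← pow_mul, mul_comm, pow_mul,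
    Real.sq_sqrt (by norm_num)]

theorem kappa_le (K : ℕ) : ∑ k ∈ Icc 1 K, (1 / 2 : ℝ) ^ k * Real.sqrt (3 / 2 ^ k) ≤ 24 / 25 := by
  have hs : Real.sqrt (1 / 2) ≤ 7072 / 10000 := by
    rw [Real.sqrt_le_left (by norm_num)]
    norm_num
  have hs0 := Real.sqrt_nonneg (1 / 2)
  have h3 : Real.sqrt 3 ≤ 17321 / 10000 := by
    rw [Real.sqrt_le_left (by norm_num)]
    norm_num
  have h30 := Real.sqrt_nonneg 3
  have e : ∑ k ∈ Icc 1 K, (1 / 2 : ℝ) ^ k * Real.sqrt (3 / 2 ^ k) =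
      Real.sqrt 3 * ∑ k ∈ Icc 1 K, (1 / 2 * Real.sqrt (1 / 2)) ^ k := by
    rw [Finset.mul_sum]
    refine Finset.sum_congr rfl fun k _ => ?_
    rw [sqrt_pow', mul_pow]
    ring
  rw [e]
  set y : ℝ := 1 / 2 * Real.sqrt (1 / 2) with hy
  have hy0 : 0 ≤ y := by positivity
  have hy1 : y ≤ 3536 / 10000 := by
    rw [hy]
    linarith
  have h4 := CheN_geo hy0 (by linarith) K
  have h5 : y / (1 - y) ≤ 5471 / 10000 := by
    rw [div_le_iff₀ (by linarith)]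
    linarith
  have h6 : 0 ≤ ∑ k ∈ Icc 1 K, y ^ k := Finset.sum_nonneg fun k _ => pow_nonneg hy0 k
  calc Real.sqrt 3 * ∑ k ∈ Icc 1 K, y ^ k ≤ 17321 / 10000 * (5471 / 10000) :=
        mul_le_mul h3 (h4.trans h5) h6 (by norm_num)
    _ ≤ 24 / 25 := by norm_num

theorem half_sum (K : ℕ) : ∑ k ∈ Icc 1 K, (1 / 2 : ℝ) ^ k ≤ 1 := by
  rw [th_eq]
  exact (th_lt_one K).le

theorem half_words (K n : ℕ) : ∑ v ∈ lw K n, (1 / 2 : ℝ) ^ v.sum ≤ 1 := by
  have := mass_le K n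
  simp only [one_div_pow]
  exact this

theorem sqrt_moment (K n : ℕ) :
    ∑ v ∈ lw K n, (1 / 2 : ℝ) ^ v.sum * Real.sqrt (|(Gw v : ℝ)| / 2 ^ v.sum) ≤ 25 := by
  induction n with
  | zero =>
    simp only [lw, sum_singleton, Gw]
    norm_num
  | succ n ih =>
    rw [sum_lw_succ]
    have key : ∀ k ∈ Icc 1 K, ∑ v ∈ lw K n, (1 / 2 : ℝ) ^ (k :: v).sum *
        Real.sqrt (|(Gw (k :: v) : ℝ)| / 2 ^ (k :: v).sum) ≤
        (1 / 2 : ℝ) ^ k * 1 + (1 / 2 : ℝ) ^ k * Real.sqrt (3 / 2 ^ k) * 25 := by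
      intro k hk
      have hk1 := (Finset.mem_Icc.1 hk).1
      have hpt : ∀ v ∈ lw K n, (1 / 2 : ℝ) ^ (k :: v).sum *
          Real.sqrt (|(Gw (k :: v) : ℝ)| / 2 ^ (k :: v).sum) ≤
          (1 / 2 : ℝ) ^ k * (1 / 2 : ℝ) ^ v.sum + (1 / 2 : ℝ) ^ k * Real.sqrt (3 / 2 ^ k) *
            ((1 / 2 : ℝ) ^ v.sum * Real.sqrt (|(Gw v : ℝ)| / 2 ^ v.sum)) := by
        intro v _
        have e1 : ((Gw (k :: v) : ℤ) : ℝ) = 2 ^ v.sum * (tk k : ℝ) + 3 * (Gw v : ℝ) := by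
          have : Gw (k :: v) = 2 ^ v.sum * tk k + 3 * Gw v := rfl
          rw [this]
          push_cast
          ring
        have e2 : |((Gw (k :: v) : ℤ) : ℝ)| / 2 ^ (k :: v).sum ≤
            1 + 3 / 2 ^ k * (|(Gw v : ℝ)| / 2 ^ v.sum) := by
          rw [List.sum_cons, pow_add, div_le_iff₀ (by positivity)]
          have h1 : |((Gw (k :: v) : ℤ) : ℝ)| ≤ 2 ^ v.sum * 2 ^ k + 3 * |(Gw v : ℝ)| := by
            rw [e1]
            refine (abs_add_le _ _).trans ?_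
            rw [abs_mul, abs_mul, abs_of_pos (show (0 : ℝ) < 2 ^ v.sum by positivity),
              abs_of_pos (show (0 : ℝ) < 3 by norm_num)]
            have := mul_le_mul_of_nonneg_left (tk_abs hk1) (show (0 : ℝ) ≤ 2 ^ v.sum by positivity)
            linarith
          refine h1.trans (le_of_eq ?_)
          field_simp
        have e3 : Real.sqrt (|((Gw (k :: v) : ℤ) : ℝ)| / 2 ^ (k :: v).sum) ≤
            1 + Real.sqrt (3 / 2 ^ k) * Real.sqrt (|(Gw v : ℝ)| / 2 ^ v.sum) := by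
          rw [← Real.sqrt_mul (by positivity)]
          refine (Real.sqrt_le_sqrt e2).trans ?_
          apply Real.sqrt_le_iff.2
          have h2 := Real.sqrt_nonneg (3 / 2 ^ k * (|(Gw v : ℝ)| / 2 ^ v.sum))
          have h3 := Real.sq_sqrt (show 0 ≤ 3 / 2 ^ k * (|(Gw v : ℝ)| / 2 ^ v.sum) by positivity)
          constructor
          · linarith
          · nlinarith
        have h4 : (0 : ℝ) ≤ (1 / 2 : ℝ) ^ (k :: v).sum := by positivity
        refine (mul_le_mul_of_nonneg_left e3 h4).trans (le_of_eq ?_)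
        rw [List.sum_cons, pow_add]
        ring
      refine (Finset.sum_le_sum hpt).trans ?_
      rw [Finset.sum_add_distrib, ← Finset.mul_sum, ← Finset.mul_sum]
      exact add_le_add (mul_le_mul_of_nonneg_left (half_words K n) (by positivity))
        (mul_le_mul_of_nonneg_left ih (by positivity))
    refine (Finset.sum_le_sum key).trans ?_
    rw [Finset.sum_add_distrib, ← Finset.sum_mul, ← Finset.sum_mul]
    have h1 := half_sum K
    have h2 := kappa_le K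
    linarith

open Classical in
theorem bad_S {S : ℝ} (hS : 0 < S) (K n : ℕ) :
    ∑ v ∈ lw K n, (if ¬ |(Gw v : ℝ)| ≤ S * 2 ^ v.sum then (1 / 2 : ℝ) ^ v.sum else 0) ≤
      25 / Real.sqrt S := by
  have hs : 0 < Real.sqrt S := Real.sqrt_pos.2 hS
  rw [le_div_iff₀ hs, Finset.sum_mul]
  refine le_trans (Finset.sum_le_sum fun v _ => ?_) (sqrt_moment K n)
  split_ifs with h
  · rw [zero_mul]
    positivity
  · push Not at h
    apply mul_le_mul_of_nonneg_left _ (by positivity)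
    apply Real.sqrt_le_sqrt
    rw [le_div_iff₀ (by positivity)]
    exact h.le

open Classical in
/-- The mass of the bad words. -/
theorem bad_mass {e : ℝ} (he : 0 < e) : ∃ ρ C : ℝ, 0 < ρ ∧ ρ < 1 ∧ 0 ≤ C ∧
    ∀ (K k a0 W : ℕ) (S : ℝ), 0 < S →
      (∀ s : ℕ, |(s : ℝ) - 2 * k| ≤ e * k → a0 ≤ s ∧ s < a0 + W) →
      ∑ u ∈ (lw K k) \ (Gd K k S a0 W), (1 : ℝ) / 2 ^ u.sum ≤ 25 / Real.sqrt S + C * ρ ^ k := by
  obtain ⟨ρ, C, h0, h1, hC, hb⟩ := cheN he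
  refine ⟨ρ, C, h0, h1, hC, ?_⟩
  intro K k a0 W S hS hW
  refine le_trans ?_ (add_le_add (bad_S hS K k) (hb K k))
  rw [← Finset.sum_add_distrib, ← Finset.sum_filter_add_sum_filter_not (lw K k)
    (fun u => u ∈ Gd K k S a0 W) (fun v => (if ¬ |(Gw v : ℝ)| ≤ S * 2 ^ v.sum then
      (1 / 2 : ℝ) ^ v.sum else 0) + if e * k < |(v.sum : ℝ) - 2 * k| then (1 / 2 : ℝ) ^ v.sum else 0)]
  have e1 : (lw K k) \ (Gd K k S a0 W) = (lw K k).filter (fun u => ¬ u ∈ Gd K k S a0 W) := by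
    ext u
    simp
  rw [e1]
  have h2 : 0 ≤ ∑ u ∈ (lw K k).filter (fun u => u ∈ Gd K k S a0 W),
      ((if ¬ |(Gw u : ℝ)| ≤ S * 2 ^ u.sum then (1 / 2 : ℝ) ^ u.sum else 0) +
        if e * k < |(u.sum : ℝ) - 2 * k| then (1 / 2 : ℝ) ^ u.sum else 0) := by
    refine Finset.sum_nonneg fun u _ => add_nonneg ?_ ?_
    · split_ifs <;> positivity
    · split_ifs <;> positivity
  refine le_trans ?_ (le_add_of_nonneg_left h2)
  refine Finset.sum_le_sum fun u hu => ?_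
  obtain ⟨hu1, hu2⟩ := Finset.mem_filter.1 hu
  rw [mem_Gd] at hu2
  have hp : (0 : ℝ) ≤ (1 / 2 : ℝ) ^ u.sum := by positivity
  rw [← one_div_pow]
  by_cases h3 : |(Gw u : ℝ)| ≤ S * 2 ^ u.sum
  · by_cases h4 : e * k < |(u.sum : ℝ) - 2 * k|
    · rw [if_neg (not_not.2 h3), if_pos h4, zero_add]
    · exact absurd ⟨hu1, h3, hW u.sum (not_lt.1 h4)⟩ hu2
  · rw [if_pos h3]
    have : (0 : ℝ) ≤ if e * k < |(u.sum : ℝ) - 2 * k| then (1 / 2 : ℝ) ^ u.sum else 0 := by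
      split_ifs <;> positivity
    linarith

end Pool.Agent.helper94.PD
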