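import Pool.Agent.helper94.PD.Dfn

/-!
# Class bound: the ends of the words of one length and one sum are distinct integers of an interval
-/

namespace Pool.Agent.helper94.PD

open Finset Pool.Agent.helper14.EX1

theorem card_Icc_le (c ρ : ℝ) (hρ : 0 ≤ ρ) : ((Icc ⌈c - ρ⌉ ⌊c + ρ⌋).card : ℝ) ≤ 2 * ρ + 1 := by
  rw [Int.card_Icc]
  have h1 : (⌊c + ρ⌋ : ℝ) ≤ c + ρ := Int.floor_le _
  have h2 : c - ρ ≤ (⌈c - ρ⌉ : ℝ) := Int.le_ceil _
  by_cases h : 0 ≤ ⌊c + ρ⌋ + 1 - ⌈c - ρ⌉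
  · have h3 : (((⌊c + ρ⌋ + 1 - ⌈c - ρ⌉).toNat : ℕ) : ℝ) = ((⌊c + ρ⌋ + 1 - ⌈c - ρ⌉ : ℤ) : ℝ) := by
      have := Int.toNat_of_nonneg h
      exact_mod_cast this
    rw [h3]
    push_cast
    linarith
  · push Not at h
    rw [Int.toNat_of_nonpos h.le]
    push_cast
    linarith

/-- The number of words which end in one class. -/
theorem cls_card {K k m A : ℕ} {S : ℝ} (hS : 0 ≤ S) (hA : 3 ^ (k + m) ≤ 2 ^ A)
    {G : Finset (List ℕ)} (hG : G ⊆ lw K k) (hsum : ∀ u ∈ G, u.sum = A)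
    (hGw : ∀ u ∈ G, |(Gw u : ℝ)| ≤ S * 2 ^ A) (r e : ℤ) :
    (3 : ℝ) ^ (k + m) / 2 ^ A * ((G.filter (fun u => Ala r u ∧ (3 : ℤ) ^ m ∣ nd r u - e)).card : ℝ) ≤
      2 * S + 1 := by
  set c : ℝ := (2 ^ A * (r : ℝ) / 3 ^ k - e) / 3 ^ m with hc
  set ρ : ℝ := S * 2 ^ A / 3 ^ (k + m) with hρ
  have hρ0 : 0 ≤ ρ := by positivity
  have h3k : (0 : ℝ) < 3 ^ k := by positivity
  have h3m : (0 : ℝ) < 3 ^ m := by positivity
  have h3mz : (3 : ℤ) ^ m ≠ 0 := by positivity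
  have hcard : (G.filter (fun u => Ala r u ∧ (3 : ℤ) ^ m ∣ nd r u - e)).card ≤
      (Icc ⌈c - ρ⌉ ⌊c + ρ⌋).card := by
    refine Finset.card_le_card_of_injOn (fun u => (nd r u - e) / 3 ^ m) ?_ ?_
    · intro u hu
      have hu' := Finset.mem_filter.1 (Finset.mem_coe.1 hu)
      obtain ⟨huG, ha, hd⟩ := hu'
      have hl := (mem_lw.1 (hG huG)).1
      have h1 := nd_eq ha
      rw [hl, hsum u huG] at h1
      obtain ⟨t, ht⟩ := hd
      have h2 : (nd r u - e) / 3 ^ m = t := by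
        rw [ht]
        exact Int.mul_ediv_cancel_left _ h3mz
      have h1r : (3 : ℝ) ^ k * (nd r u : ℝ) = 2 ^ A * r + Gw u := by exact_mod_cast h1
      have htr : (nd r u : ℝ) - e = 3 ^ m * t := by exact_mod_cast ht
      have h3 : (t : ℝ) - c = Gw u / 3 ^ (k + m) := by
        rw [hc, pow_add]
        field_simp
        have : (3 : ℝ) ^ k * (3 ^ m * t + e) = 2 ^ A * r + Gw u := by
          rw [← h1r, ← htr]
          ring
        linarith
      have h4 : |(t : ℝ) - c| ≤ ρ := by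
        rw [h3, abs_div, abs_of_pos (show (0 : ℝ) < 3 ^ (k + m) by positivity), hρ]
        exact div_le_div_of_nonneg_right (hGw u huG) (by positivity)
      have h5 := abs_le.1 h4
      show (nd r u - e) / 3 ^ m ∈ ((Icc ⌈c - ρ⌉ ⌊c + ρ⌋ : Finset ℤ) : Set ℤ)
      rw [h2, Finset.coe_Icc, Set.mem_Icc]
      constructor
      · apply Int.ceil_le.2
        linarith
      · apply Int.le_floor.2
        linarith
    · intro u hu v hv huv
      obtain ⟨huG, hau, hdu⟩ := Finset.mem_filter.1 (Finset.mem_coe.1 hu)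
      obtain ⟨hvG, hav, hdv⟩ := Finset.mem_filter.1 (Finset.mem_coe.1 hv)
      obtain ⟨hlu, hu1⟩ := mem_lw.1 (hG huG)
      obtain ⟨hlv, hv1⟩ := mem_lw.1 (hG hvG)
      apply nd_inj (by rw [hlu, hlv]) (fun k hk => (hu1 k hk).1) (fun k hk => (hv1 k hk).1) hau hav
      obtain ⟨t, ht⟩ := hdu
      obtain ⟨t', ht'⟩ := hdv
      have huv' : (nd r u - e) / 3 ^ m = (nd r v - e) / 3 ^ m := huv
      rw [ht, ht', Int.mul_ediv_cancel_left _ h3mz, Int.mul_ediv_cancel_left _ h3mz] at huv'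
      rw [huv'] at ht
      linarith
  have h6 : ((G.filter (fun u => Ala r u ∧ (3 : ℤ) ^ m ∣ nd r u - e)).card : ℝ) ≤ 2 * ρ + 1 :=
    (by exact_mod_cast hcard : ((G.filter (fun u => Ala r u ∧ (3 : ℤ) ^ m ∣ nd r u - e)).card : ℝ) ≤
      ((Icc ⌈c - ρ⌉ ⌊c + ρ⌋).card : ℝ)).trans (card_Icc_le c ρ hρ0)
  have h7 : (0 : ℝ) < 2 ^ A := by positivity
  have h8 : (0 : ℝ) < 3 ^ (k + m) := by positivity
  have hA' : (3 : ℝ) ^ (k + m) ≤ 2 ^ A := by exact_mod_cast hA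
  calc (3 : ℝ) ^ (k + m) / 2 ^ A * ((G.filter (fun u => Ala r u ∧ (3 : ℤ) ^ m ∣ nd r u - e)).card : ℝ)
      ≤ (3 : ℝ) ^ (k + m) / 2 ^ A * (2 * ρ + 1) := mul_le_mul_of_nonneg_left h6 (by positivity)
    _ = 2 * S + (3 : ℝ) ^ (k + m) / 2 ^ A := by
        rw [hρ]
        field_simp
    _ ≤ 2 * S + 1 := by
        have : (3 : ℝ) ^ (k + m) / 2 ^ A ≤ 1 := (div_le_one h7).2 hA'
        linarith

/-- The density of the ends modulo `3 ^ m`. -/
noncomputable def Fd (k m A : ℕ) (G : Finset (List ℕ)) (r e : ℤ) : ℝ :=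
  ∑ u ∈ G, if Ala r u then (3 : ℝ) ^ (k + m) / 2 ^ A * ind m (nd r u) e else 0

theorem Fd_per (k m A : ℕ) (G : Finset (List ℕ)) (r : ℤ) : Per m (Fd k m A G r) := by
  intro e
  unfold Fd
  refine Finset.sum_congr rfl fun u _ => ?_
  rw [ind_per m (nd r u) e]

theorem Fd_nn (k m A : ℕ) (G : Finset (List ℕ)) (r e : ℤ) : 0 ≤ Fd k m A G r e := by
  unfold Fd
  refine Finset.sum_nonneg fun u _ => ?_
  split_ifs
  · exact mul_nonneg (by positivity) (ind_nn _ _ _)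
  · exact le_rfl

theorem Fd_le {K k m A : ℕ} {S : ℝ} (hS : 0 ≤ S) (hA : 3 ^ (k + m) ≤ 2 ^ A)
    {G : Finset (List ℕ)} (hG : G ⊆ lw K k) (hsum : ∀ u ∈ G, u.sum = A)
    (hGw : ∀ u ∈ G, |(Gw u : ℝ)| ≤ S * 2 ^ A) (r e : ℤ) : Fd k m A G r e ≤ 2 * S + 1 := by
  refine le_trans (le_of_eq ?_) (cls_card hS hA hG hsum hGw r e)
  unfold Fd
  rw [Finset.card_eq_sum_ones, Finset.sum_filter]
  push_cast
  rw [Finset.mul_sum]
  refine Finset.sum_congr rfl fun u _ => ?_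
  unfold ind
  have : (3 : ℤ) ^ m ∣ e - nd r u ↔ (3 : ℤ) ^ m ∣ nd r u - e := dvd_sub_comm
  by_cases h1 : Ala r u <;> by_cases h2 : (3 : ℤ) ^ m ∣ nd r u - e <;> simp [h1, h2, this]

theorem avg_ind_mul {m : ℕ} {φ : ℤ → ℝ} (hφ : Per m φ) (c : ℤ) :
    avg m (fun e => ind m c e * φ e) = φ c / 3 ^ m := by
  unfold avg
  rw [per_decomp hφ c]
  congr 1
  refine Finset.sum_congr rfl fun e _ => ?_
  rw [ind_swap, mul_comm]

/-- The sum over the words as a convolution with the density. -/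
theorem conv_eq {K k m A : ℕ} {G : Finset (List ℕ)} (hG : G ⊆ lw K k) (hsum : ∀ u ∈ G, u.sum = A)
    {D : ℤ → ℝ} (hD : Per m D) (r y : ℤ) :
    (∑ u ∈ G, if Ala r u then ww u * D (nd r u + y) else 0) =
      avg m (fun e => Fd k m A G r e * D (y + e)) := by
  unfold Fd
  simp only [Finset.sum_mul]
  rw [avg_sum]
  refine Finset.sum_congr rfl fun u hu => ?_
  have hDy : Per m (fun e => D (y + e)) := fun e => by
    show D (y + (e + 3 ^ m)) = D (y + e)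
    rw [← add_assoc, hD]
  by_cases ha : Ala r u
  · simp only [ha, if_true]
    have e1 : (fun x => (3 : ℝ) ^ (k + m) / 2 ^ A * ind m (nd r u) x * D (y + x)) =
        fun x => (3 : ℝ) ^ (k + m) / 2 ^ A * (ind m (nd r u) x * D (y + x)) := by
      funext x
      ring
    rw [e1, avg_smul, avg_ind_mul hDy (nd r u)]
    have hl := (mem_lw.1 (hG hu)).1
    unfold ww
    rw [hl, hsum u hu, pow_add, add_comm y]
    have h3m : (3 : ℝ) ^ m ≠ 0 := by positivity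
    field_simp
  · simp only [ha, if_false, zero_mul]
    exact (avg_const m 0).symm

/-- The mean of the density is the mass. -/
theorem Fd_avg {K k m A : ℕ} {G : Finset (List ℕ)} (hG : G ⊆ lw K k) (hsum : ∀ u ∈ G, u.sum = A)
    (r : ℤ) : avg m (Fd k m A G r) = ∑ u ∈ G, if Ala r u then ww u else 0 := by
  have h := conv_eq (m := m) hG hsum (per_const m 1) r 0
  simp only [mul_one] at h
  exact h.symm

end Pool.Agent.helper94.PD
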