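import Pool.Agent.helper14.EX1.Bas

/-!
# Young's inequality with the martingale differences of a density (helper4's mixing lemma)

`f` is a density modulo `3 ^ m`, `0 ≤ f ≤ K`.  For `D` of period `3 ^ j` whose sums over the top digit vanish the
convolution of `f` and `D` only sees the `j`-th martingale difference of `f`, and these differences are orthogonal.
-/

namespace Pool.Agent.helper94.PD

open Finset Pool.Agent.helper14.EX1

/-- The conditional expectation of `f` (of period `3 ^ m`) given the residue modulo `3 ^ j`. -/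
noncomputable def cE (m j : ℕ) (f : ℤ → ℝ) (x : ℤ) : ℝ :=
  (∑ W ∈ range (3 ^ (m - j)), f (x + 3 ^ j * (W : ℤ))) / 3 ^ (m - j)

theorem cE_per {m j : ℕ} (h : j ≤ m) {f : ℤ → ℝ} (hf : Per m f) : Per j (cE m j f) := by
  intro x
  unfold cE
  congr 1
  have hg : Per (m - j) (fun W => f (x + 3 ^ j * W)) := by
    intro W
    apply per_dvd hf
    have e : x + 3 ^ j * (W + 3 ^ (m - j)) - (x + 3 ^ j * W) = (3 : ℤ) ^ j * 3 ^ (m - j) := by ring
    rw [e, ← pow_add, Nat.add_sub_cancel' h]
  have h1 := sum_shift hg 1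
  rw [← h1]
  refine Finset.sum_congr rfl fun W _ => ?_
  congr 1
  ring

theorem cE_avg {m j : ℕ} (h : j ≤ m) {f g : ℤ → ℝ} (hg : Per j g) :
    avg m (fun x => f x * g x) = avg j (fun x => cE m j f x * g x) := by
  obtain ⟨r, rfl⟩ := Nat.exists_eq_add_of_le h
  unfold avg cE
  rw [sum_split j r (fun x => f x * g x), Nat.add_sub_cancel_left, pow_add]
  have h3 : (3 : ℝ) ^ r ≠ 0 := by positivity
  have h4 : (3 : ℝ) ^ j ≠ 0 := by positivity
  rw [div_eq_div_iff (by positivity) h4, Finset.sum_mul, Finset.sum_mul]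
  refine Finset.sum_congr rfl fun B _ => ?_
  have e : ∑ W ∈ range (3 ^ r), f ((B : ℤ) + 3 ^ j * (W : ℤ)) * g ((B : ℤ) + 3 ^ j * (W : ℤ)) =
      (∑ W ∈ range (3 ^ r), f ((B : ℤ) + 3 ^ j * (W : ℤ))) * g (B : ℤ) := by
    rw [Finset.sum_mul]
    refine Finset.sum_congr rfl fun W _ => ?_
    rw [per_mul hg]
  rw [e]
  field_simp

theorem cE_self {m : ℕ} (f : ℤ → ℝ) : cE m m f = f := by
  funext x
  unfold cE
  simp

/-- A function of period `3 ^ (j - 1)` is orthogonal to `D`. -/
theorem orth {j : ℕ} (hj : 1 ≤ j) {D h : ℤ → ℝ} (hh : Per (j - 1) h)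
    (h0 : ∀ z, D z + D (z + 3 ^ (j - 1)) + D (z + 2 * 3 ^ (j - 1)) = 0) (z : ℤ) :
    avg j (fun e => h e * D (z + e)) = 0 := by
  obtain ⟨i, rfl⟩ : ∃ i, j = i + 1 := ⟨j - 1, by omega⟩
  rw [Nat.add_sub_cancel] at *
  unfold avg
  rw [sum_split i 1 (fun e => h e * D (z + e)), Finset.sum_eq_zero, zero_div]
  intro B _
  have e : ∀ W ∈ range (3 ^ 1), h ((B : ℤ) + 3 ^ i * (W : ℤ)) * D (z + ((B : ℤ) + 3 ^ i * (W : ℤ))) =
      h (B : ℤ) * D (z + ((B : ℤ) + 3 ^ i * (W : ℤ))) := by
    intro W _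
    rw [per_mul hh]
  rw [Finset.sum_congr rfl e, ← Finset.mul_sum]
  have e2 : ∑ W ∈ range (3 ^ 1), D (z + ((B : ℤ) + 3 ^ i * (W : ℤ))) = 0 := by
    have := h0 (z + B)
    norm_num [Finset.sum_range_succ]
    have a1 : z + ((B : ℤ) + 3 ^ i) = z + B + 3 ^ i := by ring
    have a2 : z + ((B : ℤ) + 3 ^ i * 2) = z + B + 2 * 3 ^ i := by ring
    rw [a1, a2]
    exact this
  rw [e2, mul_zero]

theorem avg_shift {j : ℕ} {g : ℤ → ℝ} (hg : Per j g) (a : ℤ) : avg j (fun x => g (x + a)) = avg j g := by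
  unfold avg
  rw [sum_shift hg]

theorem avg_comm (p q : ℕ) (F : ℤ → ℤ → ℝ) :
    avg p (fun x => avg q (fun y => F x y)) = avg q (fun y => avg p (fun x => F x y)) := by
  unfold avg
  simp only [Finset.sum_div]
  rw [Finset.sum_comm]
  refine Finset.sum_congr rfl fun x _ => Finset.sum_congr rfl fun y _ => ?_
  ring

/-- Weighted Cauchy-Schwarz for averages. -/
theorem avg_cs (j : ℕ) (h D : ℤ → ℝ) :
    (avg j (fun e => h e * D e)) ^ 2 ≤ avg j (fun e => |D e|) * avg j (fun e => h e ^ 2 * |D e|) := by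
  unfold avg
  rw [div_pow, div_mul_div_comm, ← sq]
  apply div_le_div_of_nonneg_right _ (by positivity)
  have h1 := Finset.sum_mul_sq_le_sq_mul_sq (range (3 ^ j))
    (fun e : ℕ => Real.sqrt |D e|) (fun e : ℕ => |h e| * Real.sqrt |D e|)
  have e1 : ∀ e ∈ range (3 ^ j), Real.sqrt |D (e : ℤ)| * (|h (e : ℤ)| * Real.sqrt |D (e : ℤ)|) =
      |h (e : ℤ) * D (e : ℤ)| := by
    intro e _
    rw [abs_mul]
    calc _ = |h (e : ℤ)| * (Real.sqrt |D (e : ℤ)| * Real.sqrt |D (e : ℤ)|) := by ring
      _ = _ := by rw [Real.mul_self_sqrt (abs_nonneg _)]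
  have e2 : ∀ e ∈ range (3 ^ j), Real.sqrt |D (e : ℤ)| ^ 2 = |D (e : ℤ)| := fun e _ =>
    Real.sq_sqrt (abs_nonneg _)
  have e3 : ∀ e ∈ range (3 ^ j), (|h (e : ℤ)| * Real.sqrt |D (e : ℤ)|) ^ 2 =
      h (e : ℤ) ^ 2 * |D (e : ℤ)| := by
    intro e _
    rw [mul_pow, sq_abs, Real.sq_sqrt (abs_nonneg _)]
  rw [Finset.sum_congr rfl e1, Finset.sum_congr rfl e2, Finset.sum_congr rfl e3] at h1
  refine le_trans ?_ h1
  have h2 : |∑ x ∈ range (3 ^ j), h (x : ℤ) * D (x : ℤ)| ≤ ∑ x ∈ range (3 ^ j), |h (x : ℤ) * D (x : ℤ)| :=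
    Finset.abs_sum_le_sum_abs _ _
  rw [← sq_abs]
  exact pow_le_pow_left₀ (abs_nonneg _) h2 2

/-- **Young's inequality with martingale differences.** -/
theorem young {m : ℕ} {f : ℤ → ℝ} {K : ℝ} (hf : Per m f) (h0 : ∀ x, 0 ≤ f x) (hK : ∀ x, f x ≤ K) :
    ∃ θ : ℕ → ℝ, (∀ j, 0 ≤ θ j) ∧ ∑ j ∈ Icc 1 m, θ j ≤ K * avg m f ∧
      ∀ j, 1 ≤ j → j ≤ m → ∀ (D : ℤ → ℝ) (β : ℝ), Per j D →
        (∀ z, D z + D (z + 3 ^ (j - 1)) + D (z + 2 * 3 ^ (j - 1)) = 0) →
        avg j (fun z => |D z|) ≤ β →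
        avg m (fun z => (avg m (fun e => f e * D (z + e))) ^ 2) ≤ θ j * β ^ 2 := by
  set c : ℕ → ℤ → ℝ := fun j => cE m j f with hc
  have hcp : ∀ j, j ≤ m → Per j (c j) := fun j hj => cE_per hj hf
  -- the energies
  have hen : ∀ j, j + 1 ≤ m → avg m (fun x => (c (j + 1) x - c j x) ^ 2) =
      avg m (fun x => c (j + 1) x ^ 2) - avg m (fun x => c j x ^ 2) := by
    intro j hj
    have hp1 := hcp (j + 1) hj
    have hp0 := hcp j (by omega)
    have hp01 : Per (j + 1) (c j) := per_mono (Nat.le_succ j) hp0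
    have e1 : avg m (fun x => c (j + 1) x * c j x) = avg m (fun x => c j x ^ 2) := by
      rw [avg_up hj (per_mulf hp1 hp01), ← cE_avg hj hp01, cE_avg (by omega : j ≤ m) hp0,
        ← avg_up (by omega : j ≤ m) (per_mulf (hcp j (by omega)) hp0)]
      congr 1
      funext x
      ring
    have e2 : (fun x => (c (j + 1) x - c j x) ^ 2) =
        fun x => c (j + 1) x ^ 2 + ((-2) * (c (j + 1) x * c j x) + c j x ^ 2) := by
      funext x
      ring
    rw [e2, avg_add, avg_add, avg_smul, e1]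
    ring
  refine ⟨fun j => avg m (fun x => (c j x - c (j - 1) x) ^ 2), fun j => avg_nn fun x => sq_nonneg _,
    ?_, ?_⟩
  · -- the sum telescopes
    have htel : ∀ n, n ≤ m → ∑ j ∈ Icc 1 n, avg m (fun x => (c j x - c (j - 1) x) ^ 2) =
        avg m (fun x => c n x ^ 2) - avg m (fun x => c 0 x ^ 2) := by
      intro n
      induction n with
      | zero => intro _; simp
      | succ n ih =>
        intro hn
        rw [Finset.sum_Icc_succ_top (by omega), ih (by omega), Nat.add_sub_cancel, hen n hn]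
        ring
    rw [htel m le_rfl]
    have h1 : 0 ≤ avg m (fun x => c 0 x ^ 2) := avg_nn fun x => sq_nonneg _
    have h2 : avg m (fun x => c m x ^ 2) ≤ K * avg m f := by
      rw [← avg_smul]
      apply avg_mono
      intro x
      have e : c m x = f x := by
        rw [hc]
        simp only [cE_self]
      rw [e, sq]
      exact mul_le_mul_of_nonneg_right (hK x) (h0 x)
    linarith
  · intro j hj1 hjm D β hD hD0 hβ
    have hp1 := hcp j hjm
    have hp0 := hcp (j - 1) (by omega)
    have hp01 : Per j (c (j - 1)) := per_mono (by omega) hp0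
    set h : ℤ → ℝ := fun x => c j x - c (j - 1) x with hh
    have hhp : Per j h := fun x => by
      simp only [hh]
      rw [hp1 x, hp01 x]
    have hDz : ∀ z, Per j (fun e => D (z + e)) := fun z e => by
      show D (z + (e + 3 ^ j)) = D (z + e)
      rw [← add_assoc, hD]
    have hA : Per j (fun z => |D z|) := per_comp hD _
    have e1 : ∀ z, avg m (fun e => f e * D (z + e)) = avg j (fun e => h e * D (z + e)) := by
      intro z
      rw [cE_avg hjm (hDz z)]
      have e2 : (fun x => h x * D (z + x)) =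
          fun x => cE m j f x * D (z + x) + (-1) * (c (j - 1) x * D (z + x)) := by
        funext x
        simp only [hh, hc]
        ring
      rw [e2, avg_add, avg_smul, orth hj1 hp0 hD0 z]
      ring
    have e3 : avg j (fun z => |D z|) = avg j (fun z => |D z|) := rfl
    have hD1 : 0 ≤ avg j (fun z => |D z|) := avg_nn fun x => abs_nonneg _
    have h2 : ∀ z, (avg m (fun e => f e * D (z + e))) ^ 2 ≤
        avg j (fun z => |D z|) * avg j (fun e => h e ^ 2 * |D (z + e)|) := by
      intro z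
      rw [e1 z]
      have := avg_cs j h (fun e => D (z + e))
      have e4 : avg j (fun e => |D (z + e)|) = avg j (fun z => |D z|) := by
        rw [← avg_shift hA z]
        congr 1
        funext x
        rw [add_comm]
      rw [e4] at this
      exact this
    have hin : Per j (fun z => avg j (fun e => h e ^ 2 * |D (z + e)|)) := by
      intro z
      show avg j (fun e => h e ^ 2 * |D (z + 3 ^ j + e)|) = avg j (fun e => h e ^ 2 * |D (z + e)|)
      congr 1
      funext e
      have : z + 3 ^ j + e = z + e + 3 ^ j := by ring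
      rw [this, hD]
    calc avg m (fun z => (avg m (fun e => f e * D (z + e))) ^ 2)
        ≤ avg m (fun z => avg j (fun z => |D z|) * avg j (fun e => h e ^ 2 * |D (z + e)|)) :=
          avg_mono h2
      _ = avg j (fun z => |D z|) * avg j (fun z => avg j (fun e => h e ^ 2 * |D (z + e)|)) := by
          rw [avg_smul, avg_up hjm hin]
      _ = avg j (fun z => |D z|) * (avg j (fun z => |D z|) * avg j (fun e => h e ^ 2)) := by
          congr 1
          rw [avg_comm]
          have e5 : (fun y => avg j (fun x => h y ^ 2 * |D (x + y)|)) =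
              fun y => avg j (fun z => |D z|) * h y ^ 2 := by
            funext y
            rw [avg_smul, avg_shift hA y, mul_comm]
          rw [e5, avg_smul]
      _ = (avg j (fun z => |D z|)) ^ 2 * avg m (fun x => h x ^ 2) := by
          rw [avg_up hjm (per_comp hhp (fun t => t ^ 2))]
          ring
      _ ≤ β ^ 2 * avg m (fun x => h x ^ 2) := by
          apply mul_le_mul_of_nonneg_right _ (avg_nn fun x => sq_nonneg _)
          exact pow_le_pow_left₀ hD1 hβ 2
      _ = _ := by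
          simp only [hh]
          ring

end Pool.Agent.helper94.PD
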