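import Pool.Agent.helper14.EX1.InjZ
import Pool.Agent.helper94.PD.Yng

/-!
# Terminal families and the difference functions `DD`

`DD K Δ n x`: all words of `n` letters `≤ K` which are allowed at `x`, then the terminal function `Δ` of the sum of
the letters, of period `3` and with zero class sums.
-/

namespace Pool.Agent.helper94.PD

open Finset Pool.Agent.helper14.EX1

/-- Admissible terminal families. -/
structure Adm (Δ : ℕ → ℤ → ℝ) : Prop where
  per : ∀ A y, Δ A (y + 3) = Δ A y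
  zero : ∀ A y, Δ A y + Δ A (y + 1) + Δ A (y + 2) = 0
  le : ∀ A y, |Δ A y| ≤ 1

/-- The difference functions. -/
noncomputable def DD (K : ℕ) (Δ : ℕ → ℤ → ℝ) (n : ℕ) (x : ℤ) : ℝ :=
  ∑ v ∈ lw K n, if Ala x v then ww v * Δ v.sum (nd x v) else 0

/-- The mean of `|DD|` is at most `β` for all admissible families. -/
def Bd (K n : ℕ) (β : ℝ) : Prop := ∀ Δ, Adm Δ → avg (n + 1) (fun x => |DD K Δ n x|) ≤ β

theorem Adm.shift {Δ : ℕ → ℤ → ℝ} (h : Adm Δ) (a : ℕ) : Adm (fun A => Δ (a + A)) where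
  per := fun A y => h.per _ y
  zero := fun A y => h.zero _ y
  le := fun A y => h.le _ y

theorem Adm.nil : Adm (fun _ _ => 0) where
  per := fun _ _ => rfl
  zero := fun _ _ => by norm_num
  le := fun _ _ => by norm_num

theorem Adm.mul {Δ : ℕ → ℤ → ℝ} (h : Adm Δ) (A : ℕ) (y t : ℤ) : Δ A (y + 3 * t) = Δ A y := by
  have h1 : Per 1 (Δ A) := fun x => by
    have := h.per A x
    simpa using this
  have := per_mul h1 y t
  simpa using this

theorem Adm.zero' {Δ : ℕ → ℤ → ℝ} (h : Adm Δ) (A : ℕ) (y : ℤ) {u : ℤ} (hu : ¬ (3 : ℤ) ∣ u) :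
    Δ A y + Δ A (y + u) + Δ A (y + 2 * u) = 0 := by
  have h3 : u % 3 = 1 ∨ u % 3 = 2 := by omega
  rcases h3 with h3 | h3
  · obtain ⟨t, ht⟩ : ∃ t, u = 1 + 3 * t := ⟨u / 3, by omega⟩
    have e1 : y + u = (y + 1) + 3 * t := by rw [ht]; ring
    have e2 : y + 2 * u = (y + 2) + 3 * (2 * t) := by rw [ht]; ring
    rw [e1, e2, h.mul, h.mul]
    exact h.zero A y
  · obtain ⟨t, ht⟩ : ∃ t, u = 2 + 3 * t := ⟨u / 3, by omega⟩
    have e1 : y + u = (y + 2) + 3 * t := by rw [ht]; ring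
    have e2 : y + 2 * u = (y + 1) + 3 * (2 * t + 1) := by rw [ht]; ring
    rw [e1, e2, h.mul, h.mul]
    have := h.zero A y
    linarith

theorem two_nd (s : ℕ) : ¬ (3 : ℤ) ∣ 2 ^ s := by
  intro h
  have := Int.prime_three.dvd_of_dvd_pow h
  omega

theorem DD_per (K : ℕ) {Δ : ℕ → ℤ → ℝ} (h : Adm Δ) (n : ℕ) : Per (n + 1) (DD K Δ n) := by
  intro x
  unfold DD
  refine Finset.sum_congr rfl fun v hv => ?_
  have hl := (mem_lw.1 hv).1
  have e1 : Ala (x + 3 ^ (n + 1)) v ↔ Ala x v := by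
    have := ala_shift v x 3
    rwa [hl, ← pow_succ] at this
  have e2 : nd (x + 3 ^ (n + 1)) v = nd x v + 3 * (2 ^ v.sum * 1) := by
    have := nd_shift v 1 x 1
    rwa [hl, mul_one, add_comm 1 n, pow_one] at this
  simp only [e1, e2, h.mul]

theorem DD_zero (K : ℕ) {Δ : ℕ → ℤ → ℝ} (h : Adm Δ) (n : ℕ) (z : ℤ) :
    DD K Δ n z + DD K Δ n (z + 3 ^ n) + DD K Δ n (z + 2 * 3 ^ n) = 0 := by
  unfold DD
  rw [← Finset.sum_add_distrib, ← Finset.sum_add_distrib]
  refine Finset.sum_eq_zero fun v hv => ?_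
  have hl := (mem_lw.1 hv).1
  have e1 : Ala (z + 3 ^ n) v ↔ Ala z v := by
    have := ala_shift v z 1
    rwa [hl, mul_one] at this
  have e2 : Ala (z + 2 * 3 ^ n) v ↔ Ala z v := by
    have := ala_shift v z 2
    rwa [hl, mul_comm] at this
  have e3 : nd (z + 3 ^ n) v = nd z v + 2 ^ v.sum := by
    have := nd_shift v 0 z 1
    rwa [hl, mul_one, zero_add, pow_zero, one_mul, mul_one] at this
  have e4 : nd (z + 2 * 3 ^ n) v = nd z v + 2 * 2 ^ v.sum := by
    have := nd_shift v 0 z 2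
    rw [hl, zero_add, pow_zero, one_mul] at this
    rw [mul_comm 2 (3 ^ n : ℤ), this]
    ring
  simp only [e1, e2, e3, e4]
  by_cases ha : Ala z v
  · simp only [ha, if_true]
    have := h.zero' v.sum (nd z v) (two_nd v.sum)
    linear_combination ww v * this
  · simp only [ha, if_false]
    norm_num

theorem sum_lw_add (K k n : ℕ) (F : List ℕ → ℝ) :
    ∑ v ∈ lw K (k + n), F v = ∑ u ∈ lw K k, ∑ w ∈ lw K n, F (u ++ w) := by
  induction k generalizing F with
  | zero =>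
    rw [zero_add]
    simp [lw]
  | succ k ih =>
    have e : k + 1 + n = (k + n) + 1 := by ring
    rw [e, sum_lw_succ, sum_lw_succ]
    refine sum_congr rfl fun a _ => ?_
    rw [ih (fun v => F (a :: v))]
    simp only [List.cons_append]

theorem DD_split (K : ℕ) (Δ : ℕ → ℤ → ℝ) (k n : ℕ) (x : ℤ) :
    DD K Δ (k + n) x = ∑ u ∈ lw K k,
      if Ala x u then ww u * DD K (fun A => Δ (u.sum + A)) n (nd x u) else 0 := by
  unfold DD
  rw [sum_lw_add]
  refine Finset.sum_congr rfl fun u _ => ?_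
  by_cases hu : Ala x u
  · rw [if_pos hu, Finset.mul_sum]
    refine Finset.sum_congr rfl fun w _ => ?_
    by_cases hw : Ala (nd x u) w
    · rw [if_pos ((ala_append x u w).2 ⟨hu, hw⟩), if_pos hw, ww_append, List.sum_append, nd_append]
      ring
    · rw [if_neg (fun h => hw ((ala_append x u w).1 h).2), if_neg hw, mul_zero]
  · rw [if_neg hu]
    refine Finset.sum_eq_zero fun w _ => ?_
    rw [if_neg (fun h => hu ((ala_append x u w).1 h).1)]

theorem avg_split (k q : ℕ) (φ : ℤ → ℝ) :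
    avg (k + q) φ = avg k (fun r => avg q (fun z => φ (r + 3 ^ k * z))) := by
  unfold avg
  rw [sum_split k q φ, pow_add, ← Finset.sum_div]
  have h3 : (3 : ℝ) ^ k ≠ 0 := by positivity
  have h4 : (3 : ℝ) ^ q ≠ 0 := by positivity
  field_simp

/-- Transport along a word. -/
theorem transp (K k : ℕ) {u : List ℕ} (hu : u ∈ lw K k) {q : ℕ} {g : ℤ → ℝ} (hg : Per q g) :
    avg (k + q) (fun x => if Ala x u then g (nd x u) else 0) = avg q g / 3 ^ k := by
  obtain ⟨hl, h1⟩ := mem_lw.1 hu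
  rw [avg_split]
  have h2 : ∀ r : ℤ, avg q (fun z => if Ala (r + 3 ^ k * z) u then g (nd (r + 3 ^ k * z) u) else 0) =
      avg q g * (if Ala r u then 1 else 0) := by
    intro r
    have e1 : ∀ z, Ala (r + 3 ^ k * z) u ↔ Ala r u := fun z => by
      have := ala_shift u r z
      rwa [hl] at this
    have e2 : ∀ z, nd (r + 3 ^ k * z) u = 2 ^ u.sum * z + nd r u := fun z => by
      have := nd_shift u 0 r z
      rw [hl, zero_add, pow_zero, one_mul] at this
      rw [this]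
      ring
    simp only [e1, e2]
    by_cases ha : Ala r u
    · simp only [ha, if_true, mul_one]
      unfold avg
      rw [sum_affine hg (two_nd u.sum)]
    · simp only [ha, if_false, mul_zero]
      exact avg_const q 0
  simp only [h2]
  rw [avg_smul]
  have h3 := avg_ala u (fun k hk => (h1 k hk).1)
  rw [hl] at h3
  rw [h3]
  ring

theorem ww_div {K k : ℕ} {u : List ℕ} (hu : u ∈ lw K k) : ww u / 3 ^ k = 1 / 2 ^ u.sum := by
  have hl := (mem_lw.1 hu).1
  unfold ww
  rw [hl]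
  have h3 : (3 : ℝ) ^ k ≠ 0 := by positivity
  field_simp

theorem avg_sum {κ : Type} (q : ℕ) (s : Finset κ) (F : κ → ℤ → ℝ) :
    avg q (fun x => ∑ i ∈ s, F i x) = ∑ i ∈ s, avg q (F i) := by
  unfold avg
  rw [Finset.sum_comm, Finset.sum_div]

/-- The mass of a set of words bounds its contribution. -/
theorem mass_bd {K k n : ℕ} {β : ℝ} (hB : Bd K n β) {G : Finset (List ℕ)} (hG : G ⊆ lw K k)
    {Δ : ℕ → ℤ → ℝ} (h : Adm Δ) :
    avg (k + (n + 1)) (fun x => |∑ u ∈ G,
      if Ala x u then ww u * DD K (fun A => Δ (u.sum + A)) n (nd x u) else 0|) ≤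
      (∑ u ∈ G, 1 / 2 ^ u.sum) * β := by
  have h1 : avg (k + (n + 1)) (fun x => |∑ u ∈ G,
      if Ala x u then ww u * DD K (fun A => Δ (u.sum + A)) n (nd x u) else 0|) ≤
      avg (k + (n + 1)) (fun x => ∑ u ∈ G, ww u *
        (if Ala x u then |DD K (fun A => Δ (u.sum + A)) n (nd x u)| else 0)) := by
    refine avg_mono fun x => ?_
    refine (Finset.abs_sum_le_sum_abs _ _).trans (Finset.sum_le_sum fun u _ => ?_)
    split_ifs
    · rw [abs_mul, abs_of_pos (ww_pos u)]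
    · simp
  refine h1.trans ?_
  rw [avg_sum, Finset.sum_mul]
  refine Finset.sum_le_sum fun u hu => ?_
  have hp : Per (n + 1) (fun y => |DD K (fun A => Δ (u.sum + A)) n y|) :=
    per_comp (DD_per K (h.shift u.sum) n) _
  rw [avg_smul, transp K k (hG hu) hp]
  have e : ww u * (avg (n + 1) (fun y => |DD K (fun A => Δ (u.sum + A)) n y|) / 3 ^ k) =
      1 / 2 ^ u.sum * avg (n + 1) (fun y => |DD K (fun A => Δ (u.sum + A)) n y|) := by
    rw [← ww_div (hG hu)]
    ring
  rw [e]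
  exact mul_le_mul_of_nonneg_left (hB _ (h.shift u.sum)) (by positivity)

theorem mass_one (K k : ℕ) : ∑ u ∈ lw K k, (1 : ℝ) / 2 ^ u.sum = th K ^ k := by
  induction k with
  | zero => simp [lw]
  | succ k ih =>
    rw [sum_lw_succ, pow_succ, ← ih, ← th_eq, Finset.mul_sum]
    refine Finset.sum_congr rfl fun a _ => ?_
    rw [Finset.sum_mul]
    refine Finset.sum_congr rfl fun u _ => ?_
    rw [List.sum_cons, pow_add, one_div_pow]
    field_simp

theorem th_nn (K : ℕ) : 0 ≤ th K := by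
  unfold th
  have : (1 / 2 : ℝ) ^ K ≤ 1 := pow_le_one₀ (by norm_num) (by norm_num)
  linarith

theorem mass_le (K k : ℕ) : ∑ u ∈ lw K k, (1 : ℝ) / 2 ^ u.sum ≤ 1 := by
  rw [mass_one]
  exact pow_le_one₀ (th_nn K) (th_lt_one K).le

theorem Bd_nn {K n : ℕ} {β : ℝ} (hB : Bd K n β) : 0 ≤ β :=
  (avg_nn fun _ => abs_nonneg _).trans (hB _ Adm.nil)

theorem Bd_le {K n : ℕ} {β β' : ℝ} (hB : Bd K n β) (h : β ≤ β') : Bd K n β' :=
  fun Δ hΔ => (hB Δ hΔ).trans h

theorem Bd_one (K : ℕ) : Bd K 0 1 := by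
  intro Δ h
  have : ∀ x, |DD K Δ 0 x| ≤ 1 := by
    intro x
    unfold DD
    simp only [lw, sum_singleton]
    have : Ala x [] := trivial
    rw [if_pos this, ww_nil, one_mul]
    exact h.le _ _
  calc avg (0 + 1) (fun x => |DD K Δ 0 x|) ≤ avg (0 + 1) (fun _ => 1) := avg_mono this
    _ = 1 := avg_const _ _

theorem Bd_mono {K n : ℕ} {β : ℝ} (hB : Bd K n β) (k : ℕ) : Bd K (k + n) β := by
  intro Δ h
  have h1 := mass_bd hB (subset_refl (lw K k)) h
  rw [add_assoc]
  simp only [DD_split]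
  refine h1.trans ?_
  have := mul_le_mul_of_nonneg_right (mass_le K k) (Bd_nn hB)
  linarith

end Pool.Agent.helper94.PD
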