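import Pool.Agent.helper94.PD.Mix

/-!
# From averages to every integer root, and the size of the constants of the words
-/

namespace Pool.Agent.helper94.PD

open Finset Pool.Agent.helper14.EX1

/-- **The class bound for nonnegative periodic functions, at every integer root.** -/
theorem linf {K k m : ℕ} {S : ℝ} (hS : 0 ≤ S) {G : Finset (List ℕ)} (hG : G ⊆ lw K k)
    {I : Finset ℕ} (hsum : ∀ u ∈ G, u.sum ∈ I) (hI : ∀ A ∈ I, 3 ^ (k + m) ≤ 2 ^ A)
    (hGw : ∀ u ∈ G, |(Gw u : ℝ)| ≤ S * 2 ^ u.sum) {g : ℕ → ℤ → ℝ} (hg : ∀ A, Per m (g A))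
    (hg0 : ∀ A y, 0 ≤ g A y) (x : ℤ) :
    ∑ u ∈ G, (if Ala x u then ww u * g u.sum (nd x u) else 0) ≤
      (2 * S + 1) * ∑ A ∈ I, avg m (g A) := by
  classical
  rw [← Finset.sum_fiberwise_of_maps_to hsum, Finset.mul_sum]
  refine Finset.sum_le_sum fun A hA => ?_
  have hsub : G.filter (fun u => u.sum = A) ⊆ lw K k := (Finset.filter_subset _ _).trans hG
  have hsA : ∀ u ∈ G.filter (fun u => u.sum = A), u.sum = A := fun u hu =>
    (Finset.mem_filter.1 hu).2
  have h1 := conv_eq (m := m) hsub hsA (hg A) x 0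
  simp only [add_zero, zero_add] at h1
  have h2 : ∑ u ∈ G.filter (fun u => u.sum = A), (if Ala x u then ww u * g u.sum (nd x u) else 0) =
      ∑ u ∈ G.filter (fun u => u.sum = A), (if Ala x u then ww u * g A (nd x u) else 0) :=
    Finset.sum_congr rfl fun u hu => by rw [hsA u hu]
  rw [h2, h1, ← avg_smul]
  refine avg_mono fun e => ?_
  apply mul_le_mul_of_nonneg_right _ (hg0 A e)
  refine Fd_le hS (hI A hA) hsub hsA (fun u hu => ?_) x e
  have h3 := hGw u (Finset.mem_filter.1 hu).1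
  rwa [hsA u hu] at h3

theorem Gw_append (u v : List ℕ) : Gw (u ++ v) = 2 ^ v.sum * Gw u + 3 ^ u.length * Gw v := by
  induction u with
  | nil => simp [Gw]
  | cons k u ih =>
    have e1 : Gw (k :: u ++ v) = 2 ^ (u ++ v).sum * tk k + 3 * Gw (u ++ v) := rfl
    have e2 : Gw (k :: u) = 2 ^ u.sum * tk k + 3 * Gw u := rfl
    rw [e1, e2, ih, List.sum_append, List.length_cons, pow_add, pow_succ]
    ring

theorem pow_rate {i A : ℕ} (h : 39 * i ≤ 20 * A) : (3 : ℝ) ^ i / 2 ^ A ≤ (4 / 5) ^ i := by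
  rw [div_pow, div_le_div_iff₀ (by positivity) (by positivity)]
  have h1 : (15 ^ i : ℕ) ≤ 4 ^ i * 2 ^ A := by
    have h2 : (15 ^ i) ^ 20 ≤ (4 ^ i * 2 ^ A) ^ 20 := by
      calc (15 ^ i) ^ 20 = (15 ^ 20) ^ i := by rw [← pow_mul, ← pow_mul, mul_comm]
        _ ≤ (4 ^ 20 * 2 ^ 39) ^ i := Nat.pow_le_pow_left (by norm_num) i
        _ = (4 ^ i) ^ 20 * 2 ^ (39 * i) := by
            rw [mul_pow, ← pow_mul, ← pow_mul, ← pow_mul, mul_comm 20 i]
        _ ≤ (4 ^ i) ^ 20 * 2 ^ (20 * A) :=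
            Nat.mul_le_mul_left _ (Nat.pow_le_pow_right (by norm_num) h)
        _ = (4 ^ i * 2 ^ A) ^ 20 := by rw [mul_pow, ← pow_mul 2 A 20, mul_comm A 20]
    exact (Nat.pow_le_pow_iff_left (by norm_num)).1 h2
  have h3 : ((15 ^ i : ℕ) : ℝ) ≤ ((4 ^ i * 2 ^ A : ℕ) : ℝ) := by exact_mod_cast h1
  push_cast at h3
  calc (3 : ℝ) ^ i * 5 ^ i = 15 ^ i := by rw [← mul_pow]; norm_num
    _ ≤ _ := h3

/-- The constants of the words whose prefixes are long enough from the level `i0` on. -/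
theorem Gw_le {i0 : ℕ} : ∀ u : List ℕ, (∀ k ∈ u, 1 ≤ k) →
    (∀ i, i0 ≤ i → i ≤ u.length → 39 * i ≤ 20 * (u.take i).sum) →
    |(Gw u : ℝ)| ≤ (∑ i ∈ range u.length, if i < i0 then (3 / 2 : ℝ) ^ i else (4 / 5) ^ i) *
      2 ^ u.sum := by
  intro u
  induction u using List.reverseRecOn with
  | nil => intro _ _; simp [Gw]
  | append_singleton u k ih =>
    intro h1 h2
    have h1' : ∀ j ∈ u, 1 ≤ j := fun j hj => h1 j (by simp [hj])
    have hk : 1 ≤ k := h1 k (by simp)
    have h2' : ∀ i, i0 ≤ i → i ≤ u.length → 39 * i ≤ 20 * (u.take i).sum := by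
      intro i hi hi'
      have h3 := h2 i hi (by rw [List.length_append]; omega)
      rwa [List.take_append_of_le_length hi'] at h3
    have h4 := ih h1' h2'
    rw [Gw_append, List.length_append, List.length_singleton, Finset.sum_range_succ,
      List.sum_append, List.sum_singleton]
    have e : Gw [k] = tk k := by simp [Gw]
    rw [e]
    push_cast
    have h5 : (3 : ℝ) ^ u.length ≤ (if u.length < i0 then (3 / 2 : ℝ) ^ u.length else
        (4 / 5) ^ u.length) * 2 ^ u.sum := by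
      split_ifs with h
      · have h6 : u.length ≤ u.sum := by
          have := List.card_nsmul_le_sum u 1 (fun j hj => h1' j hj)
          simpa using this
        rw [div_pow]
        have h7 : (2 : ℝ) ^ u.length ≤ 2 ^ u.sum := pow_le_pow_right₀ (by norm_num) h6
        have h8 : (0 : ℝ) < 2 ^ u.length := by positivity
        rw [div_mul_eq_mul_div, le_div_iff₀ h8]
        exact mul_le_mul_of_nonneg_left h7 (by positivity)
      · have h6 := h2' u.length (by omega) le_rfl
        rw [List.take_length] at h6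
        have h7 := pow_rate h6
        rwa [div_le_iff₀ (by positivity)] at h7
    have h9 := tk_abs hk
    calc |2 ^ [k].sum * (Gw u : ℝ) + 3 ^ u.length * (tk k : ℝ)|
        ≤ 2 ^ k * |(Gw u : ℝ)| + 3 ^ u.length * |(tk k : ℝ)| := by
          refine (abs_add_le _ _).trans ?_
          rw [abs_mul, abs_mul, List.sum_singleton, abs_of_pos (show (0 : ℝ) < 2 ^ k by positivity),
            abs_of_pos (show (0 : ℝ) < 3 ^ u.length by positivity)]
      _ ≤ 2 ^ k * ((∑ i ∈ range u.length, if i < i0 then (3 / 2 : ℝ) ^ i else (4 / 5) ^ i) *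
            2 ^ u.sum) + (if u.length < i0 then (3 / 2 : ℝ) ^ u.length else
        (4 / 5) ^ u.length) * 2 ^ u.sum * 2 ^ k := by
          refine add_le_add (mul_le_mul_of_nonneg_left h4 (by positivity)) ?_
          exact mul_le_mul h5 h9 (abs_nonneg _) (by positivity)
      _ = _ := by
          rw [pow_add]
          ring

theorem geo_le (i0 n : ℕ) :
    ∑ i ∈ range n, (if i < i0 then (3 / 2 : ℝ) ^ i else (4 / 5) ^ i) ≤ 2 * (3 / 2) ^ i0 + 5 := by
  have h1 : ∀ i ∈ range n, (if i < i0 then (3 / 2 : ℝ) ^ i else (4 / 5) ^ i) ≤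
      (if i < i0 then (3 / 2 : ℝ) ^ i else 0) + (4 / 5) ^ i := by
    intro i _
    split_ifs
    · have : (0 : ℝ) ≤ (4 / 5) ^ i := by positivity
      linarith
    · linarith
  refine (Finset.sum_le_sum h1).trans ?_
  rw [Finset.sum_add_distrib]
  apply add_le_add
  · rw [← Finset.sum_filter]
    have h2 : (range n).filter (fun i => i < i0) ⊆ range i0 := fun i hi => by
      rw [Finset.mem_filter] at hi
      exact Finset.mem_range.2 hi.2
    refine (Finset.sum_le_sum_of_subset_of_nonneg h2 (fun _ _ _ => by positivity)).trans ?_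
    rw [geom_sum_eq (by norm_num)]
    have : (0 : ℝ) ≤ (3 / 2) ^ i0 := by positivity
    norm_num
    linarith
  · rw [geom_sum_eq (by norm_num)]
    have : (0 : ℝ) ≤ (4 / 5) ^ n := by positivity
    norm_num
    linarith

/-- The bound for the constants. -/
noncomputable def SS (i0 : ℕ) : ℝ := 2 * (3 / 2) ^ i0 + 5

theorem SS_pos (i0 : ℕ) : 0 < SS i0 := by
  unfold SS
  positivity

theorem Gw_SS {i0 : ℕ} {u : List ℕ} (h1 : ∀ k ∈ u, 1 ≤ k)
    (h2 : ∀ i, i0 ≤ i → i ≤ u.length → 39 * i ≤ 20 * (u.take i).sum) :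
    |(Gw u : ℝ)| ≤ SS i0 * 2 ^ u.sum :=
  (Gw_le u h1 h2).trans (mul_le_mul_of_nonneg_right (geo_le i0 u.length) (by positivity))

end Pool.Agent.helper94.PD
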