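import Pool.Agent.helper94.PD.Bad

/-!
# Mixing with every power
-/

namespace Pool.Agent.helper94.PD

open Finset Pool.Agent.helper14.EX1

theorem pow_cmp {q a : ℕ} (h : 39 * q ≤ 2 * a) : 3 ^ (12 * q) ≤ 2 ^ a := by
  have h1 : (3 ^ (12 * q)) ^ 2 ≤ (2 ^ a) ^ 2 := by
    calc (3 ^ (12 * q)) ^ 2 = (3 ^ 24) ^ q := by
          rw [← pow_mul, ← pow_mul]
          congr 1
          ring
      _ ≤ (2 ^ 39) ^ q := Nat.pow_le_pow_left (by norm_num) q
      _ = 2 ^ (39 * q) := by rw [← pow_mul]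
      _ ≤ 2 ^ (2 * a) := Nat.pow_le_pow_right (by norm_num) h
      _ = (2 ^ a) ^ 2 := by rw [← pow_mul, mul_comm]
  exact (Nat.pow_le_pow_iff_left (by norm_num)).1 h1

/-- **Contraction.** -/
theorem contr {κ : ℝ} (hκ : 0 < κ) : ∃ q0 : ℕ, ∀ (K q : ℕ) (β : ℝ), q0 ≤ q → Bd K q β →
    Bd K (12 * q) (κ * β) := by
  set S : ℝ := (75 / κ) ^ 2 with hS
  have hS0 : 0 < S := by positivity
  have hsS : Real.sqrt S = 75 / κ := by rw [hS, Real.sqrt_sq (by positivity)]
  obtain ⟨N, hN⟩ : ∃ N : ℕ, max 2 (27 * (2 * S + 1) / κ ^ 2) ≤ (N : ℝ) := exists_nat_ge _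
  have hN2 : 2 ≤ N := by
    have := (le_max_left _ _).trans hN
    exact_mod_cast this
  have hNr : (0 : ℝ) < N := by
    have : 0 < N := by omega
    exact_mod_cast this
  have hN3 : 27 * (2 * S + 1) / κ ^ 2 ≤ (N : ℝ) := (le_max_right _ _).trans hN
  have he : (0 : ℝ) < 1 / (10 * N) := by positivity
  obtain ⟨ρ, C, hρ0, hρ1, hC, hbad⟩ := bad_mass he
  have ev : ∀ᶠ n : ℕ in Filter.atTop, C * ρ ^ n ≤ κ / 3 := by
    have := (tendsto_pow_atTop_nhds_zero_of_lt_one hρ0.le hρ1).const_mul C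
    rw [mul_zero] at this
    exact (this.eventually_lt_const (show 0 < κ / 3 by positivity)).mono fun _ h => h.le
  obtain ⟨n1, hn1⟩ := Filter.eventually_atTop.1 ev
  refine ⟨max N (n1 + 1), ?_⟩
  intro K q β hq hB
  have hqN : N ≤ q := (le_max_left _ _).trans hq
  have hqn : n1 + 1 ≤ q := (le_max_right _ _).trans hq
  have hβ := Bd_nn hB
  have hq0 : (0 : ℝ) < q := by
    have : 0 < q := by omega
    exact_mod_cast this
  obtain ⟨d, hd⟩ : ∃ d : ℕ, d = q / N := ⟨_, rfl⟩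
  have hd1 : N * d ≤ q := by
    rw [hd]
    exact Nat.mul_div_le q N
  have hd2 : q < N * (d + 1) := by
    rw [hd]
    exact Nat.lt_mul_div_succ q (by omega)
  have hd3 : 2 * d ≤ q := (Nat.mul_le_mul_right d hN2).trans hd1
  have h12 : 3 ^ (10 * q + 2 * q) ≤ 2 ^ (20 * q - d) := by
    have e : 10 * q + 2 * q = 12 * q := by ring
    rw [e]
    exact pow_cmp (by omega)
  have hwin : ∀ s : ℕ, |(s : ℝ) - 2 * ((10 * q : ℕ) : ℝ)| ≤ 1 / (10 * N) * ((10 * q : ℕ) : ℝ) →
      20 * q - d ≤ s ∧ s < 20 * q - d + (2 * d + 1) := by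
    intro s hs
    push_cast at hs
    have e1 : 1 / (10 * (N : ℝ)) * (10 * q) = q / N := by field_simp
    rw [e1, abs_le] at hs
    obtain ⟨h1, h2⟩ := hs
    have h3 : (s : ℝ) * N ≤ 20 * q * N + q := by
      have := mul_le_mul_of_nonneg_right h2 hNr.le
      rw [div_mul_cancel₀ _ hNr.ne'] at this
      linarith
    have h4 : 20 * (q : ℝ) * N ≤ s * N + q := by
      have := mul_le_mul_of_nonneg_right h1 hNr.le
      rw [neg_mul, div_mul_cancel₀ _ hNr.ne'] at this
      linarith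
    have h3' : s * N ≤ 20 * q * N + q := by exact_mod_cast h3
    have h4' : 20 * q * N ≤ s * N + q := by exact_mod_cast h4
    have h5 : s * N < (20 * q + d + 1) * N := by
      calc s * N ≤ 20 * q * N + q := h3'
        _ < 20 * q * N + N * (d + 1) := by omega
        _ = _ := by ring
    have h6 : 20 * q * N < (s + d + 1) * N := by
      calc 20 * q * N ≤ s * N + q := h4'
        _ < s * N + N * (d + 1) := by omega
        _ = _ := by ring
    have h7 := Nat.lt_of_mul_lt_mul_right h5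
    have h8 := Nat.lt_of_mul_lt_mul_right h6
    omega
  have hb := hbad K (10 * q) (20 * q - d) (2 * d + 1) S hS0 hwin
  have hst := step (K := K) (k := 10 * q) (m := 2 * q) (j0 := q) (a0 := 20 * q - d) (W := 2 * d + 1)
    (S := S) hS0.le h12 (by omega) hb hB
  have e2 : 10 * q + 2 * q = 12 * q := by ring
  rw [e2] at hst
  refine Bd_le hst ?_
  rw [mul_comm κ β]
  apply mul_le_mul_of_nonneg_left _ hβ
  have h9 : 25 / Real.sqrt S = κ / 3 := by
    rw [hsS]
    field_simp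
    norm_num
  have h10 : C * ρ ^ (10 * q) ≤ κ / 3 := hn1 _ (by omega)
  have h11 : Real.sqrt ((2 * S + 1) * ((2 * d + 1 : ℕ) : ℝ) / ((2 * q - q : ℕ) : ℝ)) ≤ κ / 3 := by
    have e3 : 2 * q - q = q := by omega
    rw [e3, Real.sqrt_le_left (by positivity)]
    push_cast
    have hd1r : (N : ℝ) * d ≤ q := by exact_mod_cast hd1
    have hqNr : (N : ℝ) ≤ q := by exact_mod_cast hqN
    have h13 : (2 * (d : ℝ) + 1) / q ≤ 3 / N := by
      rw [div_le_div_iff₀ hq0 hNr]
      linarith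
    have h14 : (2 * S + 1) * (2 * (d : ℝ) + 1) / q ≤ (2 * S + 1) * (3 / N) := by
      rw [mul_div_assoc]
      exact mul_le_mul_of_nonneg_left h13 (by positivity)
    refine h14.trans ?_
    rw [div_le_iff₀ (by positivity)] at hN3
    have h15 : (2 * S + 1) * (3 / (N : ℝ)) = 3 * (2 * S + 1) / N := by ring
    rw [h15, div_le_iff₀ hNr]
    nlinarith
  rw [h9]
  linarith

/-- **Mixing.** -/
theorem mix (p : ℕ) : ∃ C : ℝ, 0 ≤ C ∧ ∀ K n : ℕ, Bd K n (C / (n + 1) ^ p) := by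
  obtain ⟨q0, hq0⟩ := contr (κ := (1 / 12) ^ p) (by positivity)
  obtain ⟨n1, hn1⟩ : ∃ n1 : ℕ, n1 = 12 * q0 + 12 := ⟨_, rfl⟩
  refine ⟨(n1 + 1 : ℝ) ^ p, by positivity, ?_⟩
  intro K n
  induction n using Nat.strong_induction_on with
  | _ n ih =>
    by_cases h : n < n1
    · have h1 : Bd K n 1 := by
        have := Bd_mono (Bd_one K) n
        rwa [add_zero] at this
      refine Bd_le h1 ?_
      rw [le_div_iff₀ (by positivity), one_mul]
      have h2 : (n : ℝ) ≤ n1 := by exact_mod_cast h.le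
      exact pow_le_pow_left₀ (by positivity) (by linarith) p
    · push Not at h
      obtain ⟨q, hq⟩ : ∃ q : ℕ, q = n / 12 := ⟨_, rfl⟩
      have hq1 : q0 ≤ q := by omega
      have hq2 : q < n := by omega
      have hq3 : 12 * q ≤ n := by omega
      have hq4 : n + 1 ≤ 12 * (q + 1) := by omega
      have h3 := hq0 K q _ hq1 (ih q hq2)
      have h4 := Bd_mono h3 (n - 12 * q)
      have e : n - 12 * q + 12 * q = n := by omega
      rw [e] at h4
      refine Bd_le h4 ?_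
      have h5 : ((n : ℝ) + 1) ≤ 12 * ((q : ℝ) + 1) := by exact_mod_cast hq4
      have h6 : ((n : ℝ) + 1) ^ p ≤ (12 * ((q : ℝ) + 1)) ^ p := pow_le_pow_left₀ (by positivity) h5 p
      have e2 : (1 / 12 : ℝ) ^ p * ((n1 + 1 : ℝ) ^ p / ((q : ℝ) + 1) ^ p) =
          (n1 + 1 : ℝ) ^ p / (12 * ((q : ℝ) + 1)) ^ p := by
        rw [mul_pow, one_div_pow]
        field_simp
      rw [e2]
      exact div_le_div_of_nonneg_left (by positivity) (by positivity) h6

end Pool.Agent.helper94.PD
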