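import Pool.Agent.helper94.PD.Cls

/-!
# One step of the mixing iteration (helper4's argument)
-/

namespace Pool.Agent.helper94.PD

open Finset Pool.Agent.helper14.EX1

theorem avg_sqrt (k : ℕ) {φ : ℤ → ℝ} (h : ∀ x, 0 ≤ φ x) :
    avg k (fun x => Real.sqrt (φ x)) ≤ Real.sqrt (avg k φ) := by
  apply Real.le_sqrt_of_sq_le
  have h1 := avg_cs k (fun x => Real.sqrt (φ x)) (fun _ => 1)
  simp only [mul_one, abs_one, Real.sq_sqrt (h _)] at h1
  rw [avg_const, one_mul] at h1
  exact h1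

theorem avg_abs_le (k : ℕ) (φ : ℤ → ℝ) : avg k (fun x => |φ x|) ≤ Real.sqrt (avg k (fun x => φ x ^ 2)) := by
  have h := avg_sqrt k (φ := fun x => φ x ^ 2) (fun x => sq_nonneg _)
  simp only [Real.sqrt_sq_eq_abs] at h
  exact h

/-- The good words. -/
noncomputable def Gd (K k : ℕ) (S : ℝ) (a0 W : ℕ) : Finset (List ℕ) := by
  classical
  exact (lw K k).filter (fun u => |(Gw u : ℝ)| ≤ S * 2 ^ u.sum ∧ a0 ≤ u.sum ∧ u.sum < a0 + W)

theorem mem_Gd {K k : ℕ} {S : ℝ} {a0 W : ℕ} {u : List ℕ} :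
    u ∈ Gd K k S a0 W ↔ u ∈ lw K k ∧ |(Gw u : ℝ)| ≤ S * 2 ^ u.sum ∧ a0 ≤ u.sum ∧ u.sum < a0 + W := by
  classical
  unfold Gd
  rw [Finset.mem_filter]

theorem Gd_sub (K k : ℕ) (S : ℝ) (a0 W : ℕ) : Gd K k S a0 W ⊆ lw K k := fun _ hu => (mem_Gd.1 hu).1

/-- The good words with sum `A`. -/
noncomputable def GA (K k : ℕ) (S : ℝ) (a0 W A : ℕ) : Finset (List ℕ) :=
  (Gd K k S a0 W).filter (fun u => u.sum = A)

theorem GA_sub (K k : ℕ) (S : ℝ) (a0 W A : ℕ) : GA K k S a0 W A ⊆ lw K k := fun _ hu =>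
  Gd_sub _ _ _ _ _ (Finset.mem_filter.1 hu).1

theorem GA_sum {K k : ℕ} {S : ℝ} {a0 W A : ℕ} : ∀ u ∈ GA K k S a0 W A, u.sum = A := fun _ hu =>
  (Finset.mem_filter.1 hu).2

/-- Grouping by the sum. -/
theorem Gd_group (K k : ℕ) (S : ℝ) (a0 W : ℕ) (F : List ℕ → ℝ) :
    ∑ u ∈ Gd K k S a0 W, F u = ∑ A ∈ Ico a0 (a0 + W), ∑ u ∈ GA K k S a0 W A, F u := by
  unfold GA
  rw [Finset.sum_fiberwise_of_maps_to]
  intro u hu
  rw [Finset.mem_Ico]
  exact (mem_Gd.1 hu).2.2

/-- Sums over words are periodic. -/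
theorem sum_per {K k q : ℕ} {G : Finset (List ℕ)} (hG : G ⊆ lw K k) {D : List ℕ → ℤ → ℝ}
    (hD : ∀ u, Per q (D u)) :
    Per (k + q) (fun x => ∑ u ∈ G, if Ala x u then ww u * D u (nd x u) else 0) := by
  intro x
  refine Finset.sum_congr rfl fun u hu => ?_
  have hl := (mem_lw.1 (hG hu)).1
  have e1 : Ala (x + 3 ^ (k + q)) u ↔ Ala x u := by
    have := ala_shift u x (3 ^ q)
    rwa [hl, ← pow_add] at this
  have e2 : nd (x + 3 ^ (k + q)) u = nd x u + 3 ^ q * (2 ^ u.sum * 1) := by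
    have := nd_shift u q x 1
    rwa [hl, mul_one, add_comm q k] at this
  simp only [e1, e2, per_mul (hD u)]

theorem mass_avg {K k : ℕ} : avg k (fun r => ∑ u ∈ lw K k, if Ala r u then ww u else 0) ≤ 1 := by
  rw [avg_sum]
  refine le_trans (le_of_eq ?_) (mass_le K k)
  refine Finset.sum_congr rfl fun u hu => ?_
  obtain ⟨hl, h1⟩ := mem_lw.1 hu
  have e : (fun r => if Ala r u then ww u else 0) = fun r => ww u * (if Ala r u then 1 else 0) := by
    funext r
    split_ifs <;> ring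
  have h2 := avg_ala u (fun j hj => (h1 j hj).1)
  rw [hl] at h2
  rw [e, avg_smul, h2, ← ww_div hu]
  ring

/-- **The step.** -/
theorem step {K k m j0 a0 W : ℕ} {S δ β : ℝ} (hS : 0 ≤ S) (ha : 3 ^ (k + m) ≤ 2 ^ a0) (hj : j0 < m)
    (hδ : ∑ u ∈ (lw K k) \ (Gd K k S a0 W), (1 : ℝ) / 2 ^ u.sum ≤ δ) (hB : Bd K j0 β) :
    Bd K (k + m) (β * (δ + Real.sqrt ((2 * S + 1) * W / ((m - j0 : ℕ) : ℝ)))) := by
  classical
  have hβ : 0 ≤ β := Bd_nn hB
  have hmj : (0 : ℝ) < ((m - j0 : ℕ) : ℝ) := by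
    have : 0 < m - j0 := by omega
    exact_mod_cast this
  -- the energies
  have hy : ∀ (r : ℤ) (A : ℕ), ∃ θ : ℕ → ℝ, A ∈ Ico a0 (a0 + W) → (∀ j, 0 ≤ θ j) ∧
      ∑ j ∈ Icc 1 m, θ j ≤ (2 * S + 1) * avg m (Fd k m A (GA K k S a0 W A) r) ∧
      ∀ j, 1 ≤ j → j ≤ m → ∀ (D : ℤ → ℝ) (β : ℝ), Per j D →
        (∀ z, D z + D (z + 3 ^ (j - 1)) + D (z + 2 * 3 ^ (j - 1)) = 0) →
        avg j (fun z => |D z|) ≤ β →
        avg m (fun z => (avg m (fun e => Fd k m A (GA K k S a0 W A) r e * D (z + e))) ^ 2) ≤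
          θ j * β ^ 2 := by
    intro r A
    by_cases hA : A ∈ Ico a0 (a0 + W)
    · have h3 : 3 ^ (k + m) ≤ 2 ^ A :=
        ha.trans (Nat.pow_le_pow_right (by norm_num) (Finset.mem_Ico.1 hA).1)
      obtain ⟨θ, h⟩ := young (Fd_per k m A (GA K k S a0 W A) r) (Fd_nn k m A (GA K k S a0 W A) r)
        (Fd_le hS h3 (GA_sub K k S a0 W A) GA_sum (fun u hu => by
          have h5 := (mem_Gd.1 (Finset.mem_filter.1 hu).1).2.1
          rwa [GA_sum u hu] at h5) r)
      exact ⟨θ, fun _ => h⟩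
    · exact ⟨fun _ => 0, fun h => absurd h hA⟩
  choose θ hθ using hy
  set T : ℕ → ℝ := fun i => avg k (fun r => ∑ A ∈ Ico a0 (a0 + W), Real.sqrt (θ r A (i + 1))) with hT
  -- the pigeonhole
  have hsum : ∑ i ∈ Ico j0 m, T i ≤
      ∑ _i ∈ Ico j0 m, Real.sqrt ((2 * S + 1) * W / ((m - j0 : ℕ) : ℝ)) := by
    have e1 : ∑ i ∈ Ico j0 m, T i =
        avg k (fun r => ∑ i ∈ Ico j0 m, ∑ A ∈ Ico a0 (a0 + W), Real.sqrt (θ r A (i + 1))) := by
      rw [avg_sum]
    have hpt : ∀ r : ℤ, ∑ i ∈ Ico j0 m, ∑ A ∈ Ico a0 (a0 + W), Real.sqrt (θ r A (i + 1)) ≤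
        Real.sqrt (((m - j0 : ℕ) : ℝ) * W * (2 * S + 1) * ∑ u ∈ lw K k, if Ala r u then ww u else 0) := by
      intro r
      apply Real.le_sqrt_of_sq_le
      rw [← Finset.sum_product']
      have h1 := sq_sum_le_card_mul_sum_sq (s := Ico j0 m ×ˢ Ico a0 (a0 + W))
        (f := fun z => Real.sqrt (θ r z.2 (z.1 + 1)))
      have hnn : ∀ A ∈ Ico a0 (a0 + W), ∀ j, 0 ≤ θ r A j := fun A hA => (hθ r A hA).1
      have h2 : ∑ z ∈ Ico j0 m ×ˢ Ico a0 (a0 + W), Real.sqrt (θ r z.2 (z.1 + 1)) ^ 2 ≤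
          (2 * S + 1) * ∑ u ∈ lw K k, if Ala r u then ww u else 0 := by
        rw [Finset.sum_product_right]
        have h3 : ∀ A ∈ Ico a0 (a0 + W), ∑ i ∈ Ico j0 m, Real.sqrt (θ r A (i + 1)) ^ 2 ≤
            (2 * S + 1) * ∑ u ∈ GA K k S a0 W A, if Ala r u then ww u else 0 := by
          intro A hA
          have h4 := (hθ r A hA).2.1
          rw [Fd_avg (GA_sub K k S a0 W A) GA_sum r] at h4
          refine le_trans ?_ h4
          have h5 : ∑ i ∈ Ico j0 m, Real.sqrt (θ r A (i + 1)) ^ 2 = ∑ i ∈ Ico j0 m, θ r A (i + 1) :=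
            Finset.sum_congr rfl fun i _ => Real.sq_sqrt (hnn A hA _)
          rw [h5]
          rw [Finset.sum_Ico_add' (fun i => θ r A i) j0 m 1]
          refine Finset.sum_le_sum_of_subset_of_nonneg ?_ (fun i _ _ => hnn A hA i)
          intro i hi
          rw [Finset.mem_Ico] at hi
          rw [Finset.mem_Icc]
          omega
        refine (Finset.sum_le_sum h3).trans ?_
        rw [← Finset.mul_sum]
        apply mul_le_mul_of_nonneg_left _ (by positivity)
        have h6 := Gd_group K k S a0 W (fun u => if Ala r u then ww u else 0)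
        rw [← h6]
        refine Finset.sum_le_sum_of_subset_of_nonneg (Gd_sub K k S a0 W) (fun u _ _ => ?_)
        split_ifs
        · exact (ww_pos u).le
        · exact le_rfl
      refine h1.trans ?_
      rw [Finset.card_product, Nat.card_Ico, Nat.card_Ico, Nat.add_sub_cancel_left]
      push_cast
      have h7 : (0 : ℝ) ≤ ((m - j0 : ℕ) : ℝ) * W := by positivity
      have h8 := mul_le_mul_of_nonneg_left h2 h7
      refine h8.trans (le_of_eq ?_)
      ring
    have hZ : ∀ r : ℤ, 0 ≤ ∑ u ∈ lw K k, if Ala r u then ww u else 0 := fun r =>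
      Finset.sum_nonneg fun u _ => by
        split_ifs
        · exact (ww_pos u).le
        · exact le_rfl
    have hc0 : (0 : ℝ) ≤ ((m - j0 : ℕ) : ℝ) * W * (2 * S + 1) := by positivity
    rw [e1]
    refine (avg_mono hpt).trans ?_
    refine (avg_sqrt k (fun r => mul_nonneg hc0 (hZ r))).trans ?_
    rw [avg_smul]
    have h9 : ((m - j0 : ℕ) : ℝ) * W * (2 * S + 1) *
        avg k (fun r => ∑ u ∈ lw K k, if Ala r u then ww u else 0) ≤
        ((m - j0 : ℕ) : ℝ) * W * (2 * S + 1) * 1 := mul_le_mul_of_nonneg_left mass_avg hc0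
    refine (Real.sqrt_le_sqrt h9).trans (le_of_eq ?_)
    rw [Finset.sum_const, Nat.card_Ico, nsmul_eq_mul]
    have e2 : ((m - j0 : ℕ) : ℝ) * W * (2 * S + 1) * 1 =
        ((m - j0 : ℕ) : ℝ) ^ 2 * ((2 * S + 1) * W / ((m - j0 : ℕ) : ℝ)) := by
      field_simp
    rw [e2, Real.sqrt_mul (by positivity), Real.sqrt_sq hmj.le]
  obtain ⟨i, hi, hTi⟩ := Finset.exists_le_of_sum_le
    (Finset.nonempty_Ico.2 hj) hsum
  obtain ⟨hi1, hi2⟩ := Finset.mem_Ico.1 hi
  -- the bound at `k + i`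
  have hBi : Bd K i β := by
    have := Bd_mono hB (i - j0)
    rwa [Nat.sub_add_cancel hi1] at this
  have key : Bd K (k + i) (β * (δ + Real.sqrt ((2 * S + 1) * W / ((m - j0 : ℕ) : ℝ)))) := by
    intro Δ hΔ
    have hgood : avg (k + (i + 1)) (fun x => |∑ u ∈ Gd K k S a0 W,
        if Ala x u then ww u * DD K (fun A => Δ (u.sum + A)) i (nd x u) else 0|) ≤ β * T i := by
      have hper : Per (k + (i + 1)) (fun x => |∑ u ∈ Gd K k S a0 W,
          if Ala x u then ww u * DD K (fun A => Δ (u.sum + A)) i (nd x u) else 0|) :=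
        per_comp (sum_per (Gd_sub K k S a0 W) (D := fun u => DD K (fun A => Δ (u.sum + A)) i)
          (fun u => DD_per K (hΔ.shift u.sum) i)) (fun t => |t|)
      rw [← avg_up (show k + (i + 1) ≤ k + m by omega) hper, avg_split, hT]
      simp only []
      rw [← avg_smul]
      refine avg_mono fun r => ?_
      have hdec : ∀ z : ℤ, |∑ u ∈ Gd K k S a0 W, if Ala (r + 3 ^ k * z) u then
          ww u * DD K (fun A => Δ (u.sum + A)) i (nd (r + 3 ^ k * z) u) else 0| ≤
          ∑ A ∈ Ico a0 (a0 + W), |avg m (fun e => Fd k m A (GA K k S a0 W A) r e *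
            DD K (fun A' => Δ (A + A')) i (2 ^ A * z + e))| := by
        intro z
        rw [Gd_group]
        refine (Finset.abs_sum_le_sum_abs _ _).trans (Finset.sum_le_sum fun A hA => ?_)
        have hDp : Per m (DD K (fun A' => Δ (A + A')) i) :=
          per_mono (show i + 1 ≤ m by omega) (DD_per K (hΔ.shift A) i)
        rw [← conv_eq (GA_sub K k S a0 W A) GA_sum hDp r (2 ^ A * z)]
        apply le_of_eq
        congr 1
        refine Finset.sum_congr rfl fun u hu => ?_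
        have hl := (mem_lw.1 (GA_sub K k S a0 W A hu)).1
        have hs := GA_sum u hu
        have e1 : Ala (r + 3 ^ k * z) u ↔ Ala r u := by
          have := ala_shift u r z
          rwa [hl] at this
        have e2 : nd (r + 3 ^ k * z) u = nd r u + 2 ^ A * z := by
          have := nd_shift u 0 r z
          rwa [hl, hs, zero_add, pow_zero, one_mul] at this
        simp only [e1, e2, hs]
      refine (avg_mono hdec).trans ?_
      rw [avg_sum, Finset.mul_sum]
      refine Finset.sum_le_sum fun A hA => ?_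
      set Ψ : ℤ → ℝ := fun y => avg m (fun e => Fd k m A (GA K k S a0 W A) r e *
            DD K (fun A' => Δ (A + A')) i (y + e)) with hΨ
      have hDp1 : Per (i + 1) (DD K (fun A' => Δ (A + A')) i) := DD_per K (hΔ.shift A) i
      have hDp : Per m (DD K (fun A' => Δ (A + A')) i) := per_mono (show i + 1 ≤ m by omega) hDp1
      have hΨp : Per m (fun y => |Ψ y|) := by
        apply per_comp
        intro y
        simp only [hΨ]
        congr 1
        funext e
        have : y + 3 ^ m + e = y + e + 3 ^ m := by ring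
        rw [this, hDp]
      have e3 : avg m (fun z => |avg m (fun e => Fd k m A (GA K k S a0 W A) r e *
            DD K (fun A' => Δ (A + A')) i (2 ^ A * z + e))|) = avg m (fun y => |Ψ y|) := by
        unfold avg
        rw [← sum_affine hΨp (two_nd A) 0]
        simp only [add_zero]
        rfl
      rw [e3]
      refine (avg_abs_le m Ψ).trans ?_
      have h10 := (hθ r A hA).2.2 (i + 1) (by omega) (by omega) (DD K (fun A' => Δ (A + A')) i) β
        hDp1 (by
          intro z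
          rw [Nat.add_sub_cancel]
          exact DD_zero K (hΔ.shift A) i z) (hBi _ (hΔ.shift A))
      refine (Real.sqrt_le_sqrt h10).trans (le_of_eq ?_)
      rw [Real.sqrt_mul ((hθ r A hA).1 _), Real.sqrt_sq hβ, mul_comm]
    have hbad := mass_bd hBi (Finset.sdiff_subset : (lw K k) \ (Gd K k S a0 W) ⊆ lw K k) hΔ
    have hdd : ∀ x, |DD K Δ (k + i) x| ≤ |∑ u ∈ Gd K k S a0 W,
        if Ala x u then ww u * DD K (fun A => Δ (u.sum + A)) i (nd x u) else 0| +
        |∑ u ∈ (lw K k) \ (Gd K k S a0 W),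
        if Ala x u then ww u * DD K (fun A => Δ (u.sum + A)) i (nd x u) else 0| := by
      intro x
      rw [DD_split, ← Finset.sum_sdiff (Gd_sub K k S a0 W)]
      rw [add_comm]
      exact abs_add_le _ _
    calc avg (k + i + 1) (fun x => |DD K Δ (k + i) x|)
        ≤ avg (k + i + 1) (fun x => |∑ u ∈ Gd K k S a0 W,
        if Ala x u then ww u * DD K (fun A => Δ (u.sum + A)) i (nd x u) else 0| +
        |∑ u ∈ (lw K k) \ (Gd K k S a0 W),
        if Ala x u then ww u * DD K (fun A => Δ (u.sum + A)) i (nd x u) else 0|) := avg_mono hdd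
      _ ≤ β * T i + (∑ u ∈ (lw K k) \ (Gd K k S a0 W), (1 : ℝ) / 2 ^ u.sum) * β := by
          rw [avg_add, add_assoc]
          exact add_le_add hgood hbad
      _ ≤ β * Real.sqrt ((2 * S + 1) * W / ((m - j0 : ℕ) : ℝ)) + δ * β :=
          add_le_add (mul_le_mul_of_nonneg_left hTi hβ) (mul_le_mul_of_nonneg_right hδ hβ)
      _ = _ := by ring
  have h11 := Bd_mono key (m - i)
  have e4 : m - i + (k + i) = k + m := by omega
  rwa [e4] at h11

end Pool.Agent.helper94.PD
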